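import Mathlib
import Pool.Agent.EWG.StmtsC
import Pool.Agent.Common_PNT.PNT

set_option autoImplicit false

namespace Pool.Agent.EWG.H95

open Finset Filter Topology

/-- the sum of `Λ` over `1, .., x` is at most `(1 + e) x` for large `x` -/
theorem mdl_psi (e : ℝ) (he : 0 < e) : ∃ X : ℕ, ∀ x : ℕ, X ≤ x →
    ∑ n ∈ Icc 1 x, (ArithmeticFunction.vonMangoldt n : ℝ) ≤ (1 + e) * x := by
  have h1 := Pool.Agent.Common_PNT.tendsto_psi_div
  have h2 : ∀ᶠ x : ℝ in atTop, Chebyshev.psi x / x < 1 + e :=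
    h1.eventually (eventually_lt_nhds (by linarith))
  have h3 : ∀ᶠ x : ℕ in atTop, Chebyshev.psi (x : ℝ) / (x : ℝ) < 1 + e :=
    tendsto_natCast_atTop_atTop.eventually h2
  obtain ⟨X, hX⟩ := eventually_atTop.mp (h3.and (eventually_ge_atTop 1))
  refine ⟨X, fun x hx => ?_⟩
  obtain ⟨h4, h5⟩ := hX x hx
  have hx0 : (0 : ℝ) < x := by
    have : (1 : ℝ) ≤ x := by exact_mod_cast h5
    linarith
  rw [div_lt_iff₀ hx0] at h4
  have h6 : Chebyshev.psi (x : ℝ) = ∑ n ∈ Icc 1 x, (ArithmeticFunction.vonMangoldt n : ℝ) := by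
    rw [Chebyshev.psi, Nat.floor_natCast]
    have : Finset.Icc 1 x = Finset.Ioc 0 x := by
      ext k; simp [Nat.succ_le_iff]
    rw [this]
  rw [← h6]
  exact h4.le

/-- one modulus -/
theorem mdl_one (x l : ℕ) (hl : l.Prime) :
    Th x l ≤ |∑ n ∈ Icc 1 x, (ArithmeticFunction.vonMangoldt n : ℝ) * D l n| +
      (∑ n ∈ Icc 1 x, (ArithmeticFunction.vonMangoldt n : ℝ)) / ((l : ℝ) - 1) := by
  have hl1 : (0 : ℝ) < (l : ℝ) - 1 := by
    have : (2 : ℝ) ≤ l := by exact_mod_cast hl.two_le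
    linarith
  have h1 : Th x l ≤ ∑ n ∈ Icc 1 x, (ArithmeticFunction.vonMangoldt n : ℝ) *
      (if n % l = 1 % l then 1 else 0) := by
    unfold Th
    rw [Finset.sum_filter]
    refine Finset.sum_le_sum fun n hn => ?_
    by_cases hp : n.Prime ∧ n % l = 1 % l
    · rw [if_pos hp, if_pos hp.2, ArithmeticFunction.vonMangoldt_apply_prime hp.1, mul_one]
    · rw [if_neg hp]
      have := @ArithmeticFunction.vonMangoldt_nonneg n
      split_ifs
      · linarith
      · simp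
  have h2 : ∑ n ∈ Icc 1 x, (ArithmeticFunction.vonMangoldt n : ℝ) *
      (if l ∣ n then 0 else 1 / ((l : ℝ) - 1)) ≤
        (∑ n ∈ Icc 1 x, (ArithmeticFunction.vonMangoldt n : ℝ)) / ((l : ℝ) - 1) := by
    rw [Finset.sum_div]
    refine Finset.sum_le_sum fun n hn => ?_
    have h0 := @ArithmeticFunction.vonMangoldt_nonneg n
    split_ifs
    · rw [mul_zero]
      positivity
    · rw [mul_one_div]
  have h3 : ∑ n ∈ Icc 1 x, (ArithmeticFunction.vonMangoldt n : ℝ) * D l n =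
      ∑ n ∈ Icc 1 x, (ArithmeticFunction.vonMangoldt n : ℝ) *
        (if n % l = 1 % l then 1 else 0) -
      ∑ n ∈ Icc 1 x, (ArithmeticFunction.vonMangoldt n : ℝ) *
        (if l ∣ n then 0 else 1 / ((l : ℝ) - 1)) := by
    rw [← Finset.sum_sub_distrib]
    refine Finset.sum_congr rfl fun n _ => ?_
    unfold D
    ring
  have h4 := le_abs_self (∑ n ∈ Icc 1 x, (ArithmeticFunction.vonMangoldt n : ℝ) * D l n)
  linarith

theorem mdl (h1 : BvfW) (h2 : SllStmt) : MdlStmt := by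
  intro δ ε η hδ hε hη
  obtain ⟨C, hC, hS⟩ := h2
  obtain ⟨X1, hX1⟩ := h1 δ ε (η / 4) hδ hε (by linarith)
  obtain ⟨X2, hX2⟩ := mdl_psi (η / 4) (by linarith)
  -- large `x` with `C (1 + η/4) ≤ (η/4) log x`
  have h3 : ∀ᶠ x : ℕ in atTop, C * (1 + η / 4) / (η / 4) ≤ Real.log x :=
    (Real.tendsto_log_atTop.comp tendsto_natCast_atTop_atTop).eventually_ge_atTop _
  obtain ⟨X3, hX3⟩ := eventually_atTop.mp h3
  refine ⟨max (max X1 X2) (max X3 1), fun x hx => ?_⟩
  have hx1 : X1 ≤ x := by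
    have := le_max_left X1 X2
    have := le_max_left (max X1 X2) (max X3 1)
    omega
  have hx2 : X2 ≤ x := by
    have := le_max_right X1 X2
    have := le_max_left (max X1 X2) (max X3 1)
    omega
  have hx3 : X3 ≤ x := by
    have := le_max_left X3 1
    have := le_max_right (max X1 X2) (max X3 1)
    omega
  have hx4 : 1 ≤ x := by
    have := le_max_right X3 1
    have := le_max_right (max X1 X2) (max X3 1)
    omega
  have hx5 : (1 : ℝ) ≤ x := by exact_mod_cast hx4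
  have hx0 : (0 : ℝ) < x := by linarith
  have hlog : 0 ≤ Real.log x := Real.log_nonneg hx5
  have hB := hX1 x hx1
  have hP := hX2 x hx2
  have hL := hX3 x hx3
  rw [div_le_iff₀ (by linarith)] at hL
  set F := (pr (Icc 1 x)).filter
    (fun l : ℕ => (x : ℝ) ^ δ < l ∧ (l : ℝ) ≤ (x : ℝ) ^ (1 / 2 - ε)) with hF
  set P := ∑ n ∈ Icc 1 x, (ArithmeticFunction.vonMangoldt n : ℝ) with hPdef
  have hP0 : 0 ≤ P := Finset.sum_nonneg fun n _ => ArithmeticFunction.vonMangoldt_nonneg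
  -- the sum of `log l / (l - 1)`
  have hM : ∑ l ∈ F, Real.log l / ((l : ℝ) - 1) ≤ 1 / 2 * Real.log x + C := by
    set y := ⌊(x : ℝ) ^ (1 / 2 : ℝ)⌋₊ with hy
    have hxp : (1 : ℝ) ≤ (x : ℝ) ^ (1 / 2 : ℝ) := Real.one_le_rpow hx5 (by norm_num)
    have hy1 : 1 ≤ y := Nat.le_floor (by exact_mod_cast hxp)
    have hy2 : (y : ℝ) ≤ (x : ℝ) ^ (1 / 2 : ℝ) := Nat.floor_le (by linarith)
    have h5 : ∑ l ∈ F, Real.log l / ((l : ℝ) - 1) ≤
        ∑ l ∈ pr (Icc 1 y), Real.log l / ((l : ℝ) - 1) := by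
      refine Finset.sum_le_sum_of_subset_of_nonneg ?_ ?_
      · intro l hl
        rw [hF, Finset.mem_filter, mem_pr, Finset.mem_Icc] at hl
        rw [mem_pr, Finset.mem_Icc]
        refine ⟨⟨hl.1.1.1, ?_⟩, hl.1.2⟩
        refine Nat.le_floor ?_
        refine le_trans hl.2.2 ?_
        exact Real.rpow_le_rpow_of_exponent_le hx5 (by linarith)
      · intro l hl _
        rw [mem_pr] at hl
        have h6 : (2 : ℝ) ≤ l := by exact_mod_cast hl.2.two_le
        have h7 : 0 ≤ Real.log l := Real.log_nonneg (by linarith)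
        have h8 : (0 : ℝ) < (l : ℝ) - 1 := by linarith
        positivity
    have h6 := hS y hy1
    have h7 : Real.log y ≤ 1 / 2 * Real.log x := by
      rw [← Real.log_rpow hx0]
      exact Real.log_le_log (by exact_mod_cast hy1) hy2
    linarith
  have hsum : ∑ l ∈ F, Real.log l * Th x l ≤
      ∑ l ∈ F, Real.log l *
        |∑ n ∈ Icc 1 x, (ArithmeticFunction.vonMangoldt n : ℝ) * D l n| +
      P * ∑ l ∈ F, Real.log l / ((l : ℝ) - 1) := by
    rw [Finset.mul_sum, ← Finset.sum_add_distrib]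
    refine Finset.sum_le_sum fun l hl => ?_
    rw [hF, Finset.mem_filter, mem_pr, Finset.mem_Icc] at hl
    have h6 : (2 : ℝ) ≤ l := by exact_mod_cast hl.1.2.two_le
    have h7 : 0 ≤ Real.log l := Real.log_nonneg (by linarith)
    have h8 := mul_le_mul_of_nonneg_left (mdl_one x l hl.1.2) h7
    rw [← hPdef] at h8
    calc Real.log l * Th x l ≤ _ := h8
      _ = _ := by ring
  have h9 : P * ∑ l ∈ F, Real.log l / ((l : ℝ) - 1) ≤
      ((1 + η / 4) * x) * (1 / 2 * Real.log x + C) := by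
    have h10 : 0 ≤ 1 / 2 * Real.log x + C := by positivity
    calc P * ∑ l ∈ F, Real.log l / ((l : ℝ) - 1) ≤ P * (1 / 2 * Real.log x + C) :=
          mul_le_mul_of_nonneg_left hM hP0
      _ ≤ ((1 + η / 4) * x) * (1 / 2 * Real.log x + C) :=
          mul_le_mul_of_nonneg_right hP h10
  have h11 : C * (1 + η / 4) * x ≤ Real.log x * (η / 4) * x :=
    mul_le_mul_of_nonneg_right hL hx0.le
  have h12 : 0 ≤ η * (x * Real.log x) := by positivity
  nlinarith [hsum, hB, h9, h11, h12]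

end Pool.Agent.EWG.H95
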